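import Mathlib
import Pool.Agent.Results.MP_3554b5_lc.SubnormalSubgroups
import Pool.Agent.Results.MP_600e55_nt.PowerGrowth
import Pool.Graph.R_seed8.R492.DS.S1

set_option autoImplicit false

/-! # MP_9924a2_lc: Galois groups of stable fields

Let `K` be a stable field, `K'` a field elementarily equivalent to `K` and `p` a prime number.

1. If `p` is not the characteristic, then in every closed pro-`p` subgroup `H` of the absolute Galois
   group of `K'` the topologically finitely generated closed subnormal subgroups are trivial or of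
   finite index in `H`, as in free pro-`p` groups.
2. Let `M` be an algebraic extension of `K'`, of finite or infinite degree, which contains the `p`-th
   roots of unity. Then the same holds in the Galois group of the maximal `p`-extension of `M`, and
   there is no valuation ring `O` of `M` with `p ∈ O*`, `1 + m ⊆ M*^p`, `O* M*^p ≠ M*` unless
   `M*/M*^p` has order `p`. If `M*/M*^p` has order at least `p²` and `-1 ∈ M*^p`, then for all
   cyclic extensions `E/M` of degree `p^m > 1` some norm from `E` to `M` is not a `p`-th power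
   in `E`, and `|E*/E*^p| ≥ p^([E : M] - 1) |M*/M*^p|` if `M*/M*^p` is finite. If `M*/M*^p` is finite of
   large dimension, then the dimension of `L*/L*^p` is at least a power of `[L : M]` for suitable
   finite extensions `L` of `M` in its maximal `p`-extension, of all `p`-power degrees.

Outline. Otherwise the theorem `SubnormalSubgroups` of `MP_3554b5_lc` or the theorem `PowerGrowth` of
`MP_600e55_nt` gives a nontrivial valuation ring of `K` which is definable with parameters; the
powers of a nonunit give the order property. -/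

namespace Pool.Agent.Results.MP_9924a2_lc.SubnormalSubgroups

open Pool.Agent.Results.MP_3554b5_lc.SubnormalSubgroups
open Pool.Agent.Results.MP_600e55_nt.CyclicGrowth (IsFinitePExtension)
open Pool.Agent.Results.MP_600e55_nt.PowerGrowth (dimension)

/-- no ring formula has the order property in `K`, i.e. `K` is stable -/
def IsStable (K : Type) [Field K] [FirstOrder.Ring.CompatibleRing K] : Prop :=
  ∀ (m k : ℕ) (φ : FirstOrder.Language.ring.Formula (Fin m ⊕ Fin k)),
    ¬ ∀ n : ℕ, ∃ (a : Fin n → Fin m → K) (b : Fin n → Fin k → K),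
      ∀ i j : Fin n, (φ.Realize (Sum.elim (a i) (b j)) ↔ i < j)

/-- in the closed pro-`p` subgroups of the absolute Galois group of `K`, all topologically finitely
generated closed subnormal subgroups are trivial or of finite index -/
def ClosedSubgroupsGood (p : ℕ) (K : Type) [Field K] : Prop :=
  ∀ H : Subgroup (SeparableClosure K ≃ₐ[K] SeparableClosure K),
    IsClosed (H : Set (SeparableClosure K ≃ₐ[K] SeparableClosure K)) → IsProP p H →
      ¬ HasSubnormalSubgroup H

/-- the same for the Galois group of the maximal `p`-extension of `M` -/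
def MaximalPExtensionGood (p : ℕ) (M : Type) [Field M] : Prop :=
  ∀ Ω : IntermediateField M (AlgebraicClosure M), IsMaximalPExtension p Ω →
    ¬ HasSubnormalSubgroup (↥Ω ≃ₐ[M] ↥Ω)

/-- if `M*/M*^p` does not have order `p` then `M` has no compatible valuation ring -/
def NoCompatibleRing (p : ℕ) (M : Type) [Field M] : Prop :=
  (powers M p).index ≠ p → ¬ ∃ O : ValuationSubring M, IsCompatible p O

/-- if `M*/M*^p` has at least `p²` elements and `-1 ∈ M*^p`, then for every cyclic extension `E` of
`M` of degree `p^m`, `m ≥ 1`, some norm from `E` to `M` is not a `p`-th power in `E`, and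
`p^([E : M] - 1) |M*/M*^p| ≤ |E*/E*^p|` if `M*/M*^p` is finite -/
def LinearGrowth (p : ℕ) (M : Type) [Field M] : Prop :=
  (powers M p).index ≠ 1 → (powers M p).index ≠ p → (-1 : Mˣ) ∈ powers M p →
    ∀ (E : Type) [Field E] [Algebra M E], IsCyclicPExtension p M E →
      ¬ NormsArePowers p M E ∧ ((powers M p).index ≠ 0 →
        p ^ (Module.finrank M E - 1) * (powers M p).index ≤ (powers E p).index)

/-- if `M*/M*^p` is finite of dimension `d(M) > c`, then for every `m` there is a field `L` of degree
`p^m` over `M` in the maximal `p`-extension such that `a^m (d(L) - c) ≥ b^m (d(M) - c)` -/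
def PowerGrowth (p a b c : ℕ) (M : Type) [Field M] : Prop :=
  (powers M p).index ≠ 0 → c < dimension p M →
    ∀ m : ℕ, ∃ L : IntermediateField M (AlgebraicClosure M),
      IsFinitePExtension p L ∧ Module.finrank M L = p ^ m ∧
        b ^ m * dimension p M + c * a ^ m ≤ a ^ m * dimension p L + c * b ^ m

/-- a stable field satisfies neither condition -/
theorem neither (K : Type) [Field K] [FirstOrder.Ring.CompatibleRing K] (hK : IsStable K)
    (K' : Type) [Field K'] [FirstOrder.Ring.CompatibleRing K']
    (he : FirstOrder.Language.ring.ElementarilyEquivalent K K') (p : ℕ) (hp : p.Prime)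
    (h : GroupCondition p K' ∨
      ∃ (M : Type) (_ : Field M) (_ : Algebra K' M), Algebra.IsAlgebraic K' M ∧
        FieldCondition p M) : False := by
  obtain ⟨⟨O, hO, hdef⟩, -⟩ :=
    (Pool.Agent.Results.MP_3554b5_lc.SubnormalSubgroups.result K K' he p hp h).2
      (Or.inl (Pool.Agent.R492.DS.nip_of_stable hK))
  obtain ⟨x, hx⟩ : ∃ x : K, x ∉ O := by
    by_contra hcon
    push Not at hcon
    exact hO (eq_top_iff.2 fun x _ => hcon x)
  have hx0 : x ≠ 0 := by
    rintro rfl
    exact hx O.zero_mem
  refine Pool.Agent.R492.DS.not_definable hK O (ϖ := x⁻¹) (inv_ne_zero hx0)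
    ((O.mem_or_inv_mem x).resolve_left hx) ?_ hdef
  rwa [inv_inv]

theorem result (K : Type) [Field K] [FirstOrder.Ring.CompatibleRing K] (hK : IsStable K)
    (K' : Type) [Field K'] [FirstOrder.Ring.CompatibleRing K']
    (he : FirstOrder.Language.ring.ElementarilyEquivalent K K') (p : ℕ) (hp : p.Prime) :
    ((p : K') ≠ 0 → ClosedSubgroupsGood p K') ∧
    ∀ (M : Type) [Field M] [Algebra K' M], Algebra.IsAlgebraic K' M →
      (∃ ζ : M, IsPrimitiveRoot ζ p) →
      MaximalPExtensionGood p M ∧ NoCompatibleRing p M ∧ LinearGrowth p M ∧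
      (p = 2 → PowerGrowth 2 2 3 7 M) ∧ (p ≠ 2 → PowerGrowth p 4 (p + 3) 9 M) := by
  have hfact : Fact p.Prime := ⟨hp⟩
  have hno := neither K hK K' he p hp
  refine ⟨fun hpK H hcl hpro hH => hno (Or.inl ⟨hpK, H, hcl, hpro, hH⟩), ?_⟩
  intro M _ _ halg hζ
  have hnoM : ¬ FieldCondition p M := fun h => hno (Or.inr ⟨M, _, _, halg, h⟩)
  have hval : NoCompatibleRing p M := fun h1 h2 => hnoM ⟨hζ, Or.inr (Or.inl ⟨h1, h2⟩)⟩
  have hdim : ∀ n : ℕ, 1 < n → n < dimension p M →
      ¬ Pool.Agent.Results.MP_600e55_nt.PowerGrowth.IsValued p M := by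
    rintro n hn hd ⟨⟨O, hO⟩, -⟩
    refine hval ?_ ⟨O, hO.inv_mem, hO.one_add, hO.ne_top⟩
    intro h1
    have h2 : dimension p M = Nat.log p (powers M p).index := rfl
    rw [h1, Nat.log_eq_one_iff.2 ⟨by nlinarith [hp.two_le], hp.one_lt, le_rfl⟩] at h2
    omega
  refine ⟨fun Ω hΩ h => hnoM ⟨hζ, Or.inl ⟨Ω, hΩ, h⟩⟩, hval, ?_, ?_, ?_⟩
  · intro h1 h2 hneg E _ _ hE
    refine ⟨fun h => hnoM ⟨hζ, Or.inr (Or.inr ⟨h1, h2, hneg, E, _, _, hE, Or.inl h⟩)⟩,
      fun h0 => ?_⟩
    by_contra hlt
    exact hnoM ⟨hζ, Or.inr (Or.inr ⟨h1, h2, hneg, E, _, _, hE, Or.inr ⟨h0, not_le.1 hlt⟩⟩)⟩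
  · intro hp2 h0 hd
    subst hp2
    obtain ⟨h2, -⟩ := Pool.Agent.Results.MP_600e55_nt.PowerGrowth.result 2 M hζ h0
    exact (h2 rfl hd).resolve_left (hdim 7 (by norm_num) hd)
  · intro hp2 h0 hd
    obtain ⟨-, hodd⟩ := Pool.Agent.Results.MP_600e55_nt.PowerGrowth.result p M hζ h0
    exact (hodd hp2 hd).resolve_left (hdim 9 (by norm_num) hd)

end Pool.Agent.Results.MP_9924a2_lc.SubnormalSubgroups
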